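import Pool.Agent.Y386.IR.Stm

/-!
# IR-INT: maximum independent sets of circular cliques are intervals (helper550)
-/

set_option autoImplicit false

namespace Pool.Agent.Y550.IR

open Finset Pool.Agent.Y386.IR

theorem t_INT : S_INT := by
  intro p q A hq hpq hlt hind
  rcases A.eq_empty_or_nonempty with rfl | ⟨x₀, hx₀⟩
  · refine ⟨by simp, fun h => ?_⟩
    rw [card_empty] at h
    omega
  have hx₀p := hlt x₀ hx₀
  -- the offset of a point
  obtain ⟨δ, hδ⟩ : ∃ δ : ℕ → ℕ, ∀ y, δ y = if x₀ ≤ y then y - x₀ else y + p - x₀ :=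
    ⟨_, fun _ => rfl⟩
  have hδ' : ∀ y, (x₀ ≤ y ∧ δ y + x₀ = y) ∨ (y < x₀ ∧ δ y + x₀ = y + p) := by
    intro y
    rw [hδ y]
    split_ifs with h
    · left
      omega
    · right
      omega
  clear hδ
  -- the point with a given offset
  obtain ⟨pt, hpt⟩ : ∃ pt : ℕ → ℕ, ∀ i, pt i = if x₀ + i < p then x₀ + i else x₀ + i - p :=
    ⟨_, fun _ => rfl⟩
  have hpt' : ∀ i, (x₀ + i < p ∧ pt i = x₀ + i) ∨ (p ≤ x₀ + i ∧ pt i + p = x₀ + i) := by
    intro i
    rw [hpt i]
    split_ifs with h
    · left
      omega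
    · right
      omega
  clear hpt
  have hptδ : ∀ y, y < p → pt (δ y) = y := by
    intro y hy
    have h1 := hδ' y
    have h2 := hpt' (δ y)
    omega
  have hCA : ∀ x ∈ A, ∀ y ∈ A, ¬ ((x + q ≤ y ∧ y + q ≤ x + p) ∨ (y + q ≤ x ∧ x + q ≤ y + p)) :=
    fun x hx y hy => hind x hx y hy
  -- the numbers of the points of `A`
  obtain ⟨φ, hφ⟩ : ∃ φ : ℕ → ℕ, ∀ y, φ y = if δ y < q then δ y else δ y + q - p :=
    ⟨_, fun _ => rfl⟩
  have hrng : ∀ y ∈ A, (δ y < q ∧ φ y = δ y) ∨ (p < δ y + q ∧ φ y + p = δ y + q) := by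
    intro y hy
    have h1 := hδ' y
    have h2 := hCA x₀ hx₀ y hy
    have h3 := hlt y hy
    rw [hφ y]
    split_ifs with h
    · left
      omega
    · right
      omega
  clear hφ
  have hmaps : ∀ y ∈ A, φ y < q := by
    intro y hy
    have h1 := hδ' y
    have h2 := hrng y hy
    have h3 := hlt y hy
    omega
  have hinj : Set.InjOn φ (A : Set ℕ) := by
    intro y hy z hz hyz
    have hy' : y ∈ A := hy
    have hz' : z ∈ A := hz
    have h1 := hδ' y
    have h2 := hδ' z
    have h3 := hrng y hy'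
    have h4 := hrng z hz'
    have h5 := hlt y hy'
    have h6 := hlt z hz'
    have h7 := hCA y hy' z hz'
    omega
  have hcard : #A ≤ q := by
    rw [← card_range q]
    exact card_le_card_of_injOn φ (fun y hy => by
      rw [coe_range, Set.mem_Iio]
      exact hmaps y hy) hinj
  refine ⟨hcard, fun hAq => ?_⟩
  have himg : A.image φ = range q := by
    refine eq_of_subset_of_card_le ?_ ?_
    · intro i hi
      obtain ⟨y, hy, rfl⟩ := mem_image.1 hi
      exact mem_range.2 (hmaps y hy)
    · rw [card_image_of_injOn hinj, card_range, hAq]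
  have hsurj : ∀ i < q, ∃ y ∈ A, φ y = i := by
    intro i hi
    have h1 : i ∈ A.image φ := by
      rw [himg]
      exact mem_range.2 hi
    obtain ⟨y, hy, h2⟩ := mem_image.1 h1
    exact ⟨y, hy, h2⟩
  -- one of two points
  have hone : ∀ i < q, pt i ∈ A ∨ pt (i + p - q) ∈ A := by
    intro i hi
    obtain ⟨y, hy, h1⟩ := hsurj i hi
    have h2 := hrng y hy
    have h3 := hptδ y (hlt y hy)
    rcases h2 with ⟨h4, h5⟩ | ⟨h4, h5⟩
    · left
      have h6 : i = δ y := by omega
      rw [h6, h3]
      exact hy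
    · right
      have h6 : i + p - q = δ y := by omega
      rw [h6, h3]
      exact hy
  have hx0 : pt 0 = x₀ := by
    have := hpt' 0
    omega
  -- the last point
  obtain ⟨m, hm, hmax⟩ := exists_max_image ((range q).filter fun i => pt i ∈ A) id
    ⟨0, mem_filter.2 ⟨mem_range.2 hq, by rw [hx0]; exact hx₀⟩⟩
  obtain ⟨hmq, hmA⟩ := mem_filter.1 hm
  rw [mem_range] at hmq
  have hmax' : ∀ i < q, pt i ∈ A → i ≤ m := fun i hi h =>
    hmax i (mem_filter.2 ⟨mem_range.2 hi, h⟩)
  have hstep : ∀ i, i + 1 < q → pt (i + 1) ∈ A → pt i ∈ A := by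
    intro i hi h
    rcases Nat.eq_zero_or_pos i with rfl | hi0
    · rw [hx0]
      exact hx₀
    rcases hone i (by omega) with h1 | h1
    · exact h1
    · exfalso
      have h2 := hCA _ h _ h1
      have h3 := hpt' (i + 1)
      have h4 := hpt' (i + p - q)
      omega
  have hdown : ∀ k ≤ m, pt (m - k) ∈ A := by
    intro k
    induction k with
    | zero => exact fun _ => hmA
    | succ k ih =>
      intro hk
      have h1 := ih (by omega)
      have h2 : m - k = m - (k + 1) + 1 := by omega
      rw [h2] at h1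
      exact hstep _ (by omega) h1
  have hlow : ∀ i ≤ m, pt i ∈ A := by
    intro i hi
    have h1 := hdown (m - i) (by omega)
    have h2 : m - (m - i) = i := by omega
    rwa [h2] at h1
  have hhigh : ∀ i < q, m < i → pt (i + p - q) ∈ A := by
    intro i hi hmi
    rcases hone i hi with h1 | h1
    · have := hmax' i hi h1
      omega
    · exact h1
  have hchar : ∀ x < p, (x ∈ A ↔ (δ x ≤ m ∨ m + 1 + p ≤ δ x + q)) := by
    intro x hx
    constructor
    · intro hxA
      have h1 := hptδ x hx
      rcases hrng x hxA with ⟨h2, -⟩ | ⟨h2, -⟩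
      · left
        exact hmax' _ h2 (by rw [h1]; exact hxA)
      · right
        by_contra hcon
        have h3 := hlow (δ x + q - p) (by omega)
        have h4 := hCA _ h3 x hxA
        have h5 := hpt' (δ x + q - p)
        have h6 := hδ' x
        omega
    · rintro (h | h)
      · have h1 := hlow _ h
        rwa [hptδ x hx] at h1
      · have h6 := hδ' x
        have h1 := hhigh (δ x + q - p) (by omega) (by omega)
        have h2 : δ x + q - p + p - q = δ x := by omega
        rw [h2, hptδ x hx] at h1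
        exact h1
  rcases Nat.lt_or_ge (x₀ + m + 1) q with h | h
  · refine ⟨x₀ + m + 1 + p - q, by omega, fun x hx => ?_⟩
    rw [hchar x hx]
    have h6 := hδ' x
    omega
  · refine ⟨x₀ + m + 1 - q, by omega, fun x hx => ?_⟩
    rw [hchar x hx]
    have h6 := hδ' x
    omega

end Pool.Agent.Y550.IR
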